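import Mathlib

/-!
# The convex hull of a compact set in a finite-dimensional real normed space is compact
-/

set_option autoImplicit false

namespace Pool.Agent.K9h77.CpHull

theorem isCompact_convexHull {E : Type} [NormedAddCommGroup E] [NormedSpace ℝ E]
    [FiniteDimensional ℝ E] {s : Set E} (hs : IsCompact s) : IsCompact (convexHull ℝ s) := by
  let N := Module.finrank ℝ E + 2
  have hN : convexHull ℝ s = ⋃ n ∈ Finset.range N,
      (fun q : (Fin n → ℝ) × (Fin n → E) => ∑ i, q.1 i • q.2 i) ''
        (stdSimplex ℝ (Fin n) ×ˢ (Set.univ.pi fun _ => s)) := by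
    apply Set.Subset.antisymm
    · intro x hx
      obtain ⟨ι, hι, z, w, hz, hai, hw, hw1, hx⟩ := eq_pos_convex_span_of_mem_convexHull hx
      have hc : Fintype.card ι ≤ Module.finrank ℝ E + 1 :=
        hai.card_le_finrank_succ.trans (by
          have := Submodule.finrank_le (vectorSpan ℝ (Set.range z))
          omega)
      simp only [Set.mem_iUnion, Finset.mem_range, exists_prop]
      let e := Fintype.equivFin ι
      refine ⟨Fintype.card ι, by omega, (w ∘ e.symm, z ∘ e.symm), ?_, ?_⟩
      · refine ⟨⟨fun i => (hw _).le, ?_⟩, fun i _ => hz ⟨_, rfl⟩⟩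
        rw [← hw1]
        exact e.symm.sum_comp w
      · rw [← hx]
        exact e.symm.sum_comp (fun i => w i • z i)
    · intro x hx
      simp only [Set.mem_iUnion, Finset.mem_range, exists_prop] at hx
      obtain ⟨n, _, ⟨w, z⟩, ⟨hw, hz⟩, rfl⟩ := hx
      exact mem_convexHull_of_exists_fintype w z hw.1 hw.2 (fun i => hz i (Set.mem_univ _)) rfl
  rw [hN]
  refine (Finset.range N).isCompact_biUnion fun n _ => ?_
  refine IsCompact.image ((isCompact_stdSimplex ℝ _).prod (isCompact_univ_pi fun _ => hs)) ?_
  fun_prop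

end Pool.Agent.K9h77.CpHull
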